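import Pool.Agent.X125.SO.Main

/-!
Uniqueness of the decomposition, and three multipliers.
-/

set_option autoImplicit false

open MeasureTheory Filter Topology Set
open scoped ENNReal

namespace Pool.Agent.X125.SO

open Pool.Agent.X125.CP

/-- the conjecture for `p, q` -/
def Fu (p q : ℕ) : Prop := ∀ μ : Measure T, IsProbabilityMeasure μ → (∀ x, μ {x} = 0) →
  Inv p μ → Inv q μ → μ = volume

instance volprob : IsProbabilityMeasure (volume : Measure T) := ⟨by simp⟩

lemma zero_of_fu {p q : ℕ} (H : Fu p q) {a : Measure T} [IsFiniteMeasure a] (h1 : ∀ x, a {x} = 0)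
    (h2 : Inv p a) (h3 : Inv q a) (h4 : a ⟂ₘ volume) : a = 0 := by
  by_contra h0
  have hs1 : a Set.univ ≠ 0 := fun h => h0 (Measure.measure_univ_eq_zero.1 h)
  set c : ℝ≥0∞ := (a Set.univ)⁻¹ with hc
  have hc0 : c ≠ 0 := by
    rw [hc]
    exact ENNReal.inv_ne_zero.2 (measure_ne_top _ _)
  have h5 := H (c • a) ⟨by
      rw [Measure.smul_apply, smul_eq_mul, hc]
      exact ENNReal.inv_mul_cancel hs1 (measure_ne_top _ _)⟩
    (fun x => by rw [Measure.smul_apply, h1, smul_zero])
    (MeasurePreserving.smul_measure h2 c) (MeasurePreserving.smul_measure h3 c)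
  have h6 : (c • a) ⟂ₘ (volume : Measure T) := h4.smul c
  rw [h5] at h6
  have h7 := Measure.MutuallySingular.self_iff (volume : Measure T) |>.1 h6
  have h8 : (volume : Measure T) Set.univ = 1 := measure_univ
  rw [h7] at h8
  simp at h8

lemma atomless_of_le {a μ : Measure T} (h : a ≤ μ) (hμ : ∀ x, μ {x} = 0) (x : T) : a {x} = 0 :=
  le_antisymm ((h {x}).trans (hμ x).le) zero_le

lemma unique_aux {p q : ℕ} (H : Fu p q) {α β α' β' : Measure T} [IsFiniteMeasure α]
    [IsFiniteMeasure β] [IsFiniteMeasure α'] [IsFiniteMeasure β'] (h1 : Inv p α) (h2 : Inv q β)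
    (h1' : Inv p α') (h2' : Inv q β') (s1 : α ⟂ₘ volume) (s1' : α' ⟂ₘ volume)
    (a1 : ∀ x, α {x} = 0) (a1' : ∀ x, α' {x} = 0)
    (he : α + β = α' + β') : α = α' := by
  obtain ⟨a, b, e1, e2, e3, e4⟩ := parts α α'
  have hfa : IsFiniteMeasure a := isFiniteMeasure_of_le α e2
  have hfb : IsFiniteMeasure b := isFiniteMeasure_of_le α' e3
  obtain ⟨i1, i2⟩ := parts_inv (meas p) e1 e2 e3 e4 (by rw [h1.map_eq, h1'.map_eq, add_comm])
  have hm : α.map (fun x : T => q • x) + β = α'.map (fun x : T => q • x) + β' := by
    have : (α + β).map (fun x : T => q • x) = (α' + β').map (fun x : T => q • x) := by rw [he]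
    rwa [Measure.map_add _ _ (meas _), Measure.map_add _ _ (meas _), h2.map_eq, h2'.map_eq] at this
  obtain ⟨j1, j2⟩ := parts_inv (meas q) e1 e2 e3 e4 (by
    refine cancel (c := β + β') ?_
    calc α' + α.map (fun x : T => q • x) + (β + β')
        = (α' + β') + (α.map (fun x : T => q • x) + β) := by abel
      _ = (α + β) + (α'.map (fun x : T => q • x) + β') := by rw [he, hm]
      _ = _ := by abel)
  have z1 : a = 0 := zero_of_fu H (atomless_of_le e2 a1) i1 j1
    (s1.mono_ac (Measure.absolutelyContinuous_of_le e2) Measure.AbsolutelyContinuous.rfl)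
  have z2 : b = 0 := zero_of_fu H (atomless_of_le e3 a1') i2 j2
    (s1'.mono_ac (Measure.absolutelyContinuous_of_le e3) Measure.AbsolutelyContinuous.rfl)
  rw [z1, z2, add_zero, add_zero] at e1
  exact e1

/-- invariant measures split -/
lemma split {p : ℕ} (hp : 2 ≤ p) {α : Measure T} [IsFiniteMeasure α] (h : Inv p α) :
    ∃ (c : ℝ≥0∞) (s : Measure T), s ⟂ₘ volume ∧ Inv p s ∧ α = c • volume + s := by
  have hv : Ergodic (fun x : T => p • x) (volume : Measure T) :=
    AddCircle.ergodic_nsmul (T := (1 : ℝ)) (n := p) (by omega)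
  have := Measure.haveLebesgueDecomposition_of_sigmaFinite α (volume : Measure T)
  obtain ⟨c, hc⟩ := hv.eq_smul_of_absolutelyContinuous
    (h.withDensity_rnDeriv hv.toMeasurePreserving) (withDensity_absolutelyContinuous _ _)
  refine ⟨c, α.singularPart volume, Measure.mutuallySingular_singularPart α volume,
    h.singularPart hv.toMeasurePreserving, ?_⟩
  rw [← hc]
  exact (Measure.rnDeriv_add_singularPart α volume).symm

/-- **the equivalence** -/
theorem fu_iff {p q : ℕ} (hp : 2 ≤ p) (hq : 2 ≤ q) : Fu p q ↔
    ∀ μ : Measure T, IsProbabilityMeasure μ → (∀ x, μ {x} = 0) → Rel p q μ →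
      ∃! d : ℝ≥0∞ × Measure T × Measure T, d.2.1 ⟂ₘ volume ∧ d.2.2 ⟂ₘ volume ∧
        Inv p d.2.1 ∧ Inv q d.2.2 ∧ μ = d.1 • volume + d.2.1 + d.2.2 := by
  constructor
  · intro H μ hμ hat hrel
    obtain ⟨α, β, h1, h2, h3⟩ := decomp hrel
    have hαle : α ≤ μ := by rw [h3]; exact Measure.le_add_right le_rfl
    have hβle : β ≤ μ := by rw [h3]; exact Measure.le_add_left le_rfl
    have hfα : IsFiniteMeasure α := isFiniteMeasure_of_le μ hαle
    have hfβ : IsFiniteMeasure β := isFiniteMeasure_of_le μ hβle
    obtain ⟨c, s, s1, s2, s3⟩ := split hp h1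
    obtain ⟨c', s', s1', s2', s3'⟩ := split hq h2
    refine ⟨(c + c', s, s'), ⟨s1, s1', s2, s2', ?_⟩, ?_⟩
    · show μ = (c + c') • volume + s + s'
      rw [h3, s3, s3', add_smul]
      abel
    · rintro ⟨d, t, t'⟩ ⟨t1, t1', t2, t2', t3⟩
      simp only at t1 t1' t2 t2' t3
      have key : d • volume + t + t' = (c + c') • volume + s + s' := by
        rw [← t3, h3, s3, s3', add_smul]
        abel
      -- the coefficients
      have hsing : (t + t' + (s + s')) ⟂ₘ (volume : Measure T) := (t1.add_left t1').add_left
        (s1.add_left s1')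
      obtain ⟨A, hA, hA1, hA2⟩ := hsing
      have hvA : (volume : Measure T) A = 1 := by
        have := prob_compl_eq_zero_iff (μ := (volume : Measure T)) hA
        exact this.1 hA2
      have hz : t A = 0 ∧ t' A = 0 ∧ s A = 0 ∧ s' A = 0 := by
        rw [Measure.add_apply, Measure.add_apply, Measure.add_apply] at hA1
        simp only [add_eq_zero] at hA1
        exact ⟨hA1.1.1, hA1.1.2, hA1.2.1, hA1.2.2⟩
      have hd : d = c + c' := by
        have h5 : (d • (volume : Measure T) + t + t' : Measure T) A =
            ((c + c') • (volume : Measure T) + s + s' : Measure T) A := by rw [key]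
        simp only [Measure.add_apply, Measure.smul_apply, hz.1, hz.2.1, hz.2.2.1, hz.2.2.2,
          add_zero, hvA, smul_eq_mul, mul_one] at h5
        exact h5
      have hdfin : IsFiniteMeasure (d • (volume : Measure T)) := by
        refine isFiniteMeasure_of_le μ ?_
        rw [t3, add_assoc]
        exact Measure.le_add_right le_rfl
      have hsum : t + t' = s + s' := by
        refine cancel (c := d • (volume : Measure T)) ?_
        calc t + t' + d • volume = d • volume + t + t' := by abel
          _ = (c + c') • volume + s + s' := key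
          _ = _ := by rw [hd]; abel
      have ht : t ≤ μ := by
        rw [t3]
        exact (Measure.le_add_left le_rfl).trans (Measure.le_add_right le_rfl)
      have ht' : t' ≤ μ := by
        rw [t3]
        exact Measure.le_add_left le_rfl
      have hs : s ≤ μ := by
        refine le_trans ?_ hαle
        rw [s3]
        exact Measure.le_add_left le_rfl
      have hs' : s' ≤ μ := by
        refine le_trans ?_ hβle
        rw [s3']
        exact Measure.le_add_left le_rfl
      have := isFiniteMeasure_of_le μ ht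
      have := isFiniteMeasure_of_le μ ht'
      have := isFiniteMeasure_of_le μ hs
      have := isFiniteMeasure_of_le μ hs'
      have hts : t = s := unique_aux H t2 t2' s2 s2' t1 s1 (atomless_of_le ht hat)
        (atomless_of_le hs hat) hsum
      have hts' : t' = s' := by
        rw [hts, add_comm s t', add_comm s s'] at hsum
        exact cancel hsum
      rw [hd, hts, hts']
  · intro H μ hμ hat h1 h2
    have hv : Ergodic (fun x : T => p • x) (volume : Measure T) :=
      AddCircle.ergodic_nsmul (T := (1 : ℝ)) (n := p) (by omega)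
    have hvq : Ergodic (fun x : T => q • x) (volume : Measure T) :=
      AddCircle.ergodic_nsmul (T := (1 : ℝ)) (n := q) (by omega)
    have := Measure.haveLebesgueDecomposition_of_sigmaFinite μ (volume : Measure T)
    have hs : μ.singularPart volume = 0 := by
      by_contra hs0
      set s : Measure T := μ.singularPart volume with hs
      have hsle : s ≤ μ := Measure.singularPart_le _ _
      have hfin : IsFiniteMeasure s := isFiniteMeasure_of_le μ hsle
      have hs1 : s Set.univ ≠ 0 := fun h => hs0 (Measure.measure_univ_eq_zero.1 h)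
      set c : ℝ≥0∞ := (s Set.univ)⁻¹ with hc
      have hpr : IsProbabilityMeasure (c • s) := ⟨by
          rw [Measure.smul_apply, smul_eq_mul, hc]
          exact ENNReal.inv_mul_cancel hs1 (measure_ne_top _ _)⟩
      have i1 : Inv p (c • s) :=
        MeasurePreserving.smul_measure (h1.singularPart hv.toMeasurePreserving) c
      have i2 : Inv q (c • s) :=
        MeasurePreserving.smul_measure (h2.singularPart hvq.toMeasurePreserving) c
      have hsg : (c • s) ⟂ₘ (volume : Measure T) :=
        (Measure.mutuallySingular_singularPart μ volume).smul c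
      have z1 : ∀ n : ℕ, Inv n (0 : Measure T) := fun n => ⟨meas n, by simp⟩
      have hrel : Rel p q (c • s) := by
        have := rel_of_sum (p := p) (q := q) i1 (z1 q)
        rwa [add_zero] at this
      obtain ⟨d, _, hd⟩ := H (c • s) hpr (fun x => by
        rw [Measure.smul_apply, atomless_of_le hsle hat, smul_zero]) hrel
      have k1 := hd (0, c • s, 0) ⟨hsg, Measure.MutuallySingular.zero_left, i1, z1 q, by simp⟩
      have k2 := hd (0, 0, c • s) ⟨Measure.MutuallySingular.zero_left, hsg, z1 p, i2, by simp⟩
      rw [← k2] at k1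
      have k3 : c • s = 0 := congrArg (fun e => e.2.1) k1
      have h5 : (c • s) Set.univ = 1 := hpr.measure_univ
      rw [k3] at h5
      simp at h5
    have hac : μ ≪ volume := (Measure.singularPart_eq_zero μ volume).1 hs
    exact (hv.eq_of_absolutelyContinuous h1 hac)

/-! ### three multipliers -/

/-- the point `k/105` -/
noncomputable def pt (k : ℤ) : T := ((k / 105 : ℝ) : T)

lemma pt_smul (n : ℕ) (k : ℤ) : n • pt k = pt (n * k) := by
  unfold pt
  rw [← AddCircle.coe_nsmul]
  congr 1
  rw [nsmul_eq_mul]
  push_cast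
  ring

lemma pt_eq {j k : ℤ} : pt j = pt k ↔ (105 : ℤ) ∣ j - k := by
  unfold pt
  rw [← sub_eq_zero, ← AddCircle.coe_sub, AddCircle.coe_eq_zero_iff]
  constructor
  · rintro ⟨m, hm⟩
    rw [zsmul_eq_mul, mul_one] at hm
    refine ⟨m, ?_⟩
    have : (m : ℝ) * 105 = j - k := by
      rw [hm]; ring
    have h2 : ((m * 105 : ℤ) : ℝ) = ((j - k : ℤ) : ℝ) := by push_cast; linarith
    have h3 : m * 105 = j - k := by exact_mod_cast h2
    linarith
  · rintro ⟨m, hm⟩
    refine ⟨m, ?_⟩
    rw [zsmul_eq_mul, mul_one]
    have h2 : ((j - k : ℤ) : ℝ) = ((105 * m : ℤ) : ℝ) := by rw [hm]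
    push_cast at h2
    have : (m : ℝ) = (j - k) / 105 := by rw [h2]; ring
    rw [this]; ring

/-- two opposite points -/
noncomputable def two (k : ℤ) : Measure T :=
  (2⁻¹ : ℝ≥0∞) • (Measure.dirac (pt k) + Measure.dirac (pt (-k)))

lemma two_map (n : ℕ) (k : ℤ) : (two k).map (fun x : T => n • x) = two (n * k) := by
  unfold two
  rw [Measure.map_smul, Measure.map_add _ _ (meas n), Measure.map_dirac' (meas n),
    Measure.map_dirac' (meas n), pt_smul, pt_smul]
  congr 3
  ring_nf

lemma two_congr {j k : ℤ} (h : (105 : ℤ) ∣ j - k) : two j = two k := by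
  unfold two
  rw [pt_eq.2 h, pt_eq.2 (show (105 : ℤ) ∣ -j - -k by
    have := h.neg_right
    rwa [show -j - -k = -(j - k) by ring])]

lemma two_neg (k : ℤ) : two (-k) = two k := by
  unfold two
  rw [neg_neg, add_comm]

instance two_prob (k : ℤ) : IsProbabilityMeasure (two k) := by
  constructor
  unfold two
  simp only [Measure.smul_apply, Measure.add_apply, measure_univ, smul_eq_mul]
  rw [show (1 : ℝ≥0∞) + 1 = 2 by norm_num]
  exact ENNReal.inv_mul_cancel (by norm_num) (by norm_num)

lemma two_zero {k : ℤ} {x : T} (h1 : x ≠ pt k) (h2 : x ≠ pt (-k)) : two k {x} = 0 := by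
  unfold two
  rw [Measure.smul_apply, Measure.add_apply, Measure.dirac_apply' _ (measurableSet_singleton x),
    Measure.dirac_apply' _ (measurableSet_singleton x), Set.indicator_of_notMem,
    Set.indicator_of_notMem]
  · simp
  · simpa using h2.symm
  · simpa using h1.symm

/-- a measure below `two 1` and invariant under a suitable `n` vanishes -/
lemma no_part {n : ℕ} (h1 : ¬ (105 : ℤ) ∣ n - 1) (h2 : ¬ (105 : ℤ) ∣ n + 1) {a : Measure T}
    (ha : a ≤ two 1) (h : Inv n a) : a = 0 := by
  have key : ∀ x y : T, n • x = y → two 1 {y} = 0 → a {x} = 0 := by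
    intro x y hxy hy
    have e := h.measure_preimage (s := {y}) (measurableSet_singleton _).nullMeasurableSet
    have e2 : a {x} ≤ a ((fun x : T => n • x) ⁻¹' {y}) := by
      refine measure_mono ?_
      rintro z hz
      rw [Set.mem_singleton_iff] at hz
      rw [hz]
      exact hxy
    rw [e] at e2
    exact le_antisymm (e2.trans ((ha _).trans hy.le)) zero_le
  have d1 : ¬ (105 : ℤ) ∣ (n * 1 : ℤ) - 1 := by simpa using h1
  have k1 : a {pt 1} = 0 := by
    refine key _ (pt (n * 1)) (pt_smul n 1) (two_zero ?_ ?_)
    · intro h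
      exact d1 (pt_eq.1 h)
    · intro h
      have := pt_eq.1 h
      apply h2
      simpa using this
  have k2 : a {pt (-1)} = 0 := by
    refine key _ (pt (n * (-1))) (pt_smul n (-1)) (two_zero ?_ ?_)
    · intro h
      have := pt_eq.1 h
      apply h2
      have := this.neg_right
      rwa [show -((n : ℤ) * -1 - 1) = n + 1 by ring] at this
    · intro h
      have := pt_eq.1 h
      apply h1
      have := this.neg_right
      rwa [show -((n : ℤ) * -1 - -1) = n - 1 by ring] at this
  refine Measure.measure_univ_eq_zero.1 ?_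
  have hu : (Set.univ : Set T) = ({pt 1} ∪ {pt (-1)}) ∪ {pt 1, pt (-1)}ᶜ := by
    ext x
    simp only [Set.mem_univ, Set.mem_union, Set.mem_singleton_iff, Set.mem_compl_iff,
      Set.mem_insert_iff, true_iff]
    tauto
  rw [hu]
  refine measure_union_null (measure_union_null k1 k2) ?_
  refine le_antisymm ((ha _).trans (le_of_eq ?_)) zero_le
  have hm : MeasurableSet ({pt 1, pt (-1)}ᶜ : Set T) :=
    (Set.Finite.measurableSet (Set.toFinite _)).compl
  unfold two
  rw [Measure.smul_apply, Measure.add_apply, Measure.dirac_apply' _ hm,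
    Measure.dirac_apply' _ hm, Set.indicator_of_notMem, Set.indicator_of_notMem]
  · simp
  · simp
  · simp

/-- **three multipliers** -/
theorem three : ∃ μ : Measure T, IsProbabilityMeasure μ ∧
    μ + μ.map (fun x : T => (71 * 64) • x) + μ.map (fun x : T => (71 * 76) • x) +
      μ.map (fun x : T => (64 * 76) • x) =
    μ.map (fun x : T => 71 • x) + μ.map (fun x : T => 64 • x) + μ.map (fun x : T => 76 • x) +
      μ.map (fun x : T => (71 * 64 * 76) • x) ∧
    ∀ α β γ : Measure T, Inv 71 α → Inv 64 β → Inv 76 γ → μ ≠ α + β + γ := by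
  refine ⟨two 1, inferInstance, ?_, ?_⟩
  · rw [two_map, two_map, two_map, two_map, two_map, two_map, two_map]
    have e1 : two (((71 * 64 : ℕ) : ℤ) * 1) = two (((76 : ℕ) : ℤ) * 1) := by
      rw [← two_neg]
      refine two_congr ?_
      norm_num
    have e2 : two (((71 * 76 : ℕ) : ℤ) * 1) = two (((64 : ℕ) : ℤ) * 1) := by
      rw [← two_neg]
      refine two_congr ?_
      norm_num
    have e3 : two (((64 * 76 : ℕ) : ℤ) * 1) = two (((71 : ℕ) : ℤ) * 1) := by
      rw [← two_neg]
      refine two_congr ?_
      norm_num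
    have e4 : two (((71 * 64 * 76 : ℕ) : ℤ) * 1) = two 1 := by
      rw [← two_neg]
      refine two_congr ?_
      norm_num
    rw [e1, e2, e3, e4]
    abel
  · intro α β γ h1 h2 h3 he
    have z1 : α = 0 := no_part (n := 71) (by norm_num) (by norm_num)
      (by rw [he, add_assoc]; exact Measure.le_add_right le_rfl) h1
    have z2 : β = 0 := no_part (n := 64) (by norm_num) (by norm_num)
      (by
        rw [he]
        exact (Measure.le_add_left le_rfl).trans (Measure.le_add_right le_rfl)) h2
    have z3 : γ = 0 := no_part (n := 76) (by norm_num) (by norm_num)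
      (by rw [he]; exact Measure.le_add_left le_rfl) h3
    have h5 : two 1 Set.univ = 1 := measure_univ
    rw [he, z1, z2, z3] at h5
    simp at h5

end Pool.Agent.X125.SO
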