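import Pool.Agent.X125.SO.Sand

/-!
Measures annihilated by `(1 - T_p)(1 - T_q)`.
-/

set_option autoImplicit false

open MeasureTheory Filter Topology Set
open scoped ENNReal BoundedContinuousFunction

namespace Pool.Agent.X125.SO

open Pool.Agent.X125.CP

section

variable {X : Type*} [MeasurableSpace X]

/-- the two parts of a difference -/
lemma parts (μ M : Measure X) [IsFiniteMeasure μ] [IsFiniteMeasure M] :
    ∃ a b : Measure X, μ + b = M + a ∧ a ≤ μ ∧ b ≤ M ∧ a ⟂ₘ b := by
  set κ : Measure X := μ + M with hκ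
  have h1 : μ ≪ κ := Measure.absolutelyContinuous_of_le (Measure.le_add_right le_rfl)
  have h2 : M ≪ κ := Measure.absolutelyContinuous_of_le (Measure.le_add_left le_rfl)
  set f : X → ℝ≥0∞ := μ.rnDeriv κ with hf
  set g : X → ℝ≥0∞ := M.rnDeriv κ with hg
  have hfm : Measurable f := Measure.measurable_rnDeriv _ _
  have hgm : Measurable g := Measure.measurable_rnDeriv _ _
  have := Measure.haveLebesgueDecomposition_of_sigmaFinite μ κ
  have := Measure.haveLebesgueDecomposition_of_sigmaFinite M κ
  have e1 : κ.withDensity f = μ := Measure.withDensity_rnDeriv_eq μ κ h1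
  have e2 : κ.withDensity g = M := Measure.withDensity_rnDeriv_eq M κ h2
  refine ⟨κ.withDensity (f - g), κ.withDensity (g - f), ?_, ?_, ?_, ?_⟩
  · have h3 : κ.withDensity f + κ.withDensity (g - f) = κ.withDensity (f + (g - f)) :=
      (withDensity_add_left hfm _).symm
    have h4 : κ.withDensity g + κ.withDensity (f - g) = κ.withDensity (g + (f - g)) :=
      (withDensity_add_left hgm _).symm
    rw [e1] at h3
    rw [e2] at h4
    rw [h3, h4]
    congr 1
    funext x
    simp only [Pi.add_apply, Pi.sub_apply]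
    rw [add_tsub_eq_max, add_tsub_eq_max, max_comm]
  · calc κ.withDensity (f - g) ≤ κ.withDensity f :=
          withDensity_mono (Eventually.of_forall fun x => tsub_le_self)
      _ = μ := e1
  · calc κ.withDensity (g - f) ≤ κ.withDensity g :=
          withDensity_mono (Eventually.of_forall fun x => tsub_le_self)
      _ = M := e2
  · refine ⟨{x | f x ≤ g x}, measurableSet_le hfm hgm, ?_, ?_⟩
    · rw [withDensity_apply_eq_zero (hfm.sub hgm)]
      convert measure_empty (μ := κ)
      ext x
      simp only [Set.mem_inter_iff, Set.mem_ofPred_eq, Pi.sub_apply, Set.mem_empty_iff_false,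
        iff_false, not_and]
      intro h h'
      exact h (tsub_eq_zero_of_le h')
    · rw [withDensity_apply_eq_zero (hgm.sub hfm)]
      convert measure_empty (μ := κ)
      ext x
      simp only [Set.mem_inter_iff, Set.mem_ofPred_eq, Pi.sub_apply, Set.mem_empty_iff_false,
        Set.mem_compl_iff, iff_false, not_and, not_not]
      intro h
      by_contra h'
      exact h (tsub_eq_zero_of_le (not_le.1 h').le)

/-- if the difference of two measures is invariant, so are its two parts -/
lemma parts_inv {R : X → X} (hR : Measurable R) {μ M a b : Measure X} [IsFiniteMeasure μ]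
    [IsFiniteMeasure M] (h : μ + b = M + a) (ha : a ≤ μ) (hb : b ≤ M) (hab : a ⟂ₘ b)
    (hrel : M + μ.map R = μ + M.map R) : MeasurePreserving R a a ∧ MeasurePreserving R b b := by
  have hfa : IsFiniteMeasure a := isFiniteMeasure_of_le μ ha
  have hfb : IsFiniteMeasure b := isFiniteMeasure_of_le M hb
  have key : a + b.map R = b + a.map R := by
    have h1 : μ.map R + b.map R = M.map R + a.map R := by
      rw [← Measure.map_add _ _ hR, ← Measure.map_add _ _ hR, h]
    refine cancel (c := M.map R + μ) ?_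
    have : b + a.map R + (M.map R + μ) = (μ + b) + (M.map R + a.map R) := by abel
    rw [this, h, ← h1]
    have e : M + a + (μ.map R + b.map R) = a + b.map R + (M + μ.map R) := by abel
    rw [e, hrel]
    abel
  obtain ⟨s, hs, h1, h2⟩ := hab
  have la : a ≤ a.map R := by
    refine Measure.le_intro fun A hA _ => ?_
    have e1 : a A ≤ a (A ∩ sᶜ) := by
      have : a A ≤ a (A ∩ sᶜ) + a s := by
        refine (measure_mono ?_).trans (measure_union_le _ _)
        intro x hx
        by_cases h : x ∈ s
        · exact Or.inr h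
        · exact Or.inl ⟨hx, h⟩
      rwa [h1, add_zero] at this
    have e2 : a (A ∩ sᶜ) + b.map R (A ∩ sᶜ) = b (A ∩ sᶜ) + a.map R (A ∩ sᶜ) := by
      rw [← Measure.add_apply, ← Measure.add_apply, key]
    have e3 : b (A ∩ sᶜ) = 0 := measure_mono_null Set.inter_subset_right h2
    rw [e3, zero_add] at e2
    calc a A ≤ a (A ∩ sᶜ) := e1
      _ ≤ a (A ∩ sᶜ) + b.map R (A ∩ sᶜ) := le_self_add
      _ = a.map R (A ∩ sᶜ) := e2
      _ ≤ a.map R A := measure_mono Set.inter_subset_left
  have lb : b ≤ b.map R := by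
    refine Measure.le_intro fun A hA _ => ?_
    have e1 : b A ≤ b (A ∩ s) := by
      have : b A ≤ b (A ∩ s) + b sᶜ := by
        refine (measure_mono ?_).trans (measure_union_le _ _)
        intro x hx
        by_cases h : x ∈ s
        · exact Or.inl ⟨hx, h⟩
        · exact Or.inr h
      rwa [h2, add_zero] at this
    have e2 : a (A ∩ s) + b.map R (A ∩ s) = b (A ∩ s) + a.map R (A ∩ s) := by
      rw [← Measure.add_apply, ← Measure.add_apply, key]
    have e3 : a (A ∩ s) = 0 := measure_mono_null Set.inter_subset_right h1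
    rw [e3, zero_add] at e2
    calc b A ≤ b (A ∩ s) := e1
      _ ≤ b (A ∩ s) + a.map R (A ∩ s) := le_self_add
      _ = b.map R (A ∩ s) := e2.symm
      _ ≤ b.map R A := measure_mono Set.inter_subset_left
  refine ⟨⟨hR, (eq_of_le_univ la ?_).symm⟩, ⟨hR, (eq_of_le_univ lb ?_).symm⟩⟩
  · rw [Measure.map_apply hR MeasurableSet.univ, Set.preimage_univ]
  · rw [Measure.map_apply hR MeasurableSet.univ, Set.preimage_univ]

/-- an invariant measure minus a smaller invariant measure -/
lemma diff_inv {R : X → X} (hR : Measurable R) {M a K : Measure X} [IsFiniteMeasure M]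
    (h : M = a + K) (hM : MeasurePreserving R M M) (hK : MeasurePreserving R K K) :
    MeasurePreserving R a a := by
  have hfK : IsFiniteMeasure K := isFiniteMeasure_of_le M (by rw [h]; exact Measure.le_add_left le_rfl)
  refine ⟨hR, ?_⟩
  refine cancel (c := K) ?_
  have h1 : M.map R = a.map R + K.map R := by
    rw [h, Measure.map_add _ _ hR]
  rw [hM.map_eq, hK.map_eq] at h1
  rw [← h1, h]

end

/-- the relation says that `(1 - T_p)(1 - T_q)` annihilates `μ` -/
def Rel (p q : ℕ) (μ : Measure T) : Prop :=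
  μ.map (fun x : T => p • x) + μ.map (fun x : T => q • x) = μ + μ.map (fun x : T => (p * q) • x)

lemma rel_of_sum {p q : ℕ} {α β : Measure T} (h1 : Inv p α) (h2 : Inv q β) : Rel p q (α + β) := by
  unfold Rel
  rw [Measure.map_add _ _ (meas _), Measure.map_add _ _ (meas _), Measure.map_add _ _ (meas _)]
  have e1 : α.map (fun x : T => (p * q) • x) = α.map (fun x : T => q • x) := by
    have : (fun x : T => (p * q) • x) = (fun x : T => q • x) ∘ fun x : T => p • x := by
      funext x
      simp only [Function.comp]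
      rw [mul_comm, mul_smul]
    rw [this, ← Measure.map_map (meas _) (meas _), h1.map_eq]
  have e2 : β.map (fun x : T => (p * q) • x) = β.map (fun x : T => p • x) := by
    have : (fun x : T => (p * q) • x) = (fun x : T => p • x) ∘ fun x : T => q • x := by
      funext x
      simp only [Function.comp]
      rw [mul_smul]
    rw [this, ← Measure.map_map (meas _) (meas _), h2.map_eq]
  rw [e1, e2, h1.map_eq, h2.map_eq]
  abel

lemma int_map (μ : Measure T) (n : ℕ) (f : T →ᵇ ℝ) :
    ∫ x, f x ∂(μ.map fun x : T => n • x) = ∫ x, f (n • x) ∂μ :=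
  integral_map (meas n).aemeasurable f.continuous.aestronglyMeasurable

/-- the limit of the averages -/
lemma exists_lim {p q : ℕ} {μ : Measure T} [IsProbabilityMeasure μ] (h : Rel p q μ) :
    ∃ M : Measure T, IsProbabilityMeasure M ∧ Inv p M ∧
      M + μ.map (fun x : T => q • x) = μ + M.map (fun x : T => q • x) := by
  set lam : ℕ → ProbabilityMeasure T := fun J => ⟨avg p μ J, inferInstance⟩ with hlam
  obtain ⟨F, hF, hFt, M, hM⟩ : ∃ F : Filter ℕ, F.NeBot ∧ F ≤ atTop ∧
      ∃ M : ProbabilityMeasure T, Tendsto lam F (𝓝 M) := by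
    refine ⟨(hyperfilter ℕ : Filter ℕ), inferInstance, Nat.hyperfilter_le_atTop, ?_⟩
    exact ⟨_, (Ultrafilter.map lam (hyperfilter ℕ)).le_nhds_lim⟩
  have hMq : Inv p (M : Measure T) := by
    refine inv_of_lim hM fun f => ?_
    have e : ∀ J : ℕ, ‖∫ x, f (p • x) ∂(lam J : Measure T) - ∫ x, f x ∂(lam J : Measure T)‖ ≤
        (2 * ‖f‖) * ((J : ℝ) + 1)⁻¹ := by
      intro J
      show ‖∫ x, f (p • x) ∂(avg p μ J) - ∫ x, f x ∂(avg p μ J)‖ ≤ _
      have h1 := integral_avg p μ J (f.compContinuous ⟨_, cont p⟩)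
      have h2 : ∀ x : T, (f.compContinuous ⟨_, cont p⟩) x = f (p • x) := fun x => rfl
      simp_rw [h2] at h1
      rw [h1, integral_avg, ← mul_sub, ← Finset.sum_sub_distrib]
      have h3 : ∀ j : ℕ, ∫ x, f (p • (p ^ j) • x) ∂μ = ∫ x, f ((p ^ (j + 1)) • x) ∂μ := by
        intro j
        congr 1
        funext x
        rw [← mul_smul, pow_succ, mul_comm]
      simp_rw [h3]
      rw [Finset.sum_range_sub (fun j => ∫ x, f ((p ^ j) • x) ∂μ)]
      have h4 : ∀ j : ℕ, ‖∫ x, f ((p ^ j) • x) ∂μ‖ ≤ ‖f‖ := by
        intro j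
        have := norm_integral_le_of_norm_le_const (μ := μ) (f := fun x : T => f ((p ^ j) • x))
          (C := ‖f‖) (Eventually.of_forall fun x => f.norm_coe_le_norm _)
        simpa using this
      rw [norm_mul, mul_comm]
      have h5 : ‖((J : ℝ) + 1)⁻¹‖ = ((J : ℝ) + 1)⁻¹ := by
        rw [Real.norm_of_nonneg (by positivity)]
      rw [h5]
      refine mul_le_mul_of_nonneg_right ?_ (by positivity)
      refine (norm_sub_le _ _).trans ?_
      have := h4 (J + 1)
      have := h4 0
      linarith
    have t : Tendsto (fun J : ℕ => (2 * ‖f‖) * ((J : ℝ) + 1)⁻¹) atTop (𝓝 0) := by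
      have h6 : Tendsto (fun n : ℕ => (n : ℝ) + 1) atTop atTop :=
        tendsto_atTop_add_const_right _ _ tendsto_natCast_atTop_atTop
      simpa using (tendsto_inv_atTop_zero.comp h6).const_mul (2 * ‖f‖)
    exact squeeze_zero_norm e (t.mono_left hFt)
  refine ⟨M, inferInstance, hMq, ?_⟩
  -- the relation for integrals
  have hrel : ∀ f : T →ᵇ ℝ, ∫ x, f (p • x) ∂μ + ∫ x, f (q • x) ∂μ =
      ∫ x, f x ∂μ + ∫ x, f (q • p • x) ∂μ := by
    intro f
    have h1 : ∫ x, f x ∂(μ.map (fun x : T => p • x) + μ.map (fun x : T => q • x)) =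
        ∫ x, f x ∂(μ + μ.map (fun x : T => (p * q) • x)) := by
      rw [h]
    have hp1 : IsProbabilityMeasure (μ.map (fun x : T => p • x)) :=
      Measure.isProbabilityMeasure_map (meas _).aemeasurable
    have hp2 : IsProbabilityMeasure (μ.map (fun x : T => q • x)) :=
      Measure.isProbabilityMeasure_map (meas _).aemeasurable
    have hp3 : IsProbabilityMeasure (μ.map (fun x : T => (p * q) • x)) :=
      Measure.isProbabilityMeasure_map (meas _).aemeasurable
    rw [integral_add_measure (f.integrable _) (f.integrable _),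
      integral_add_measure (f.integrable _) (f.integrable _), int_map, int_map, int_map] at h1
    rw [h1]
    congr 2
    funext x
    rw [mul_comm, mul_smul]
  have hstep : ∀ (f : T →ᵇ ℝ) (j : ℕ), ∫ x, f ((p ^ j) • x) ∂μ - ∫ x, f (q • (p ^ j) • x) ∂μ =
      ∫ x, f x ∂μ - ∫ x, f (q • x) ∂μ := by
    intro f j
    induction j with
    | zero => simp
    | succ j ih =>
      have h1 := hrel (f.compContinuous ⟨_, cont (p ^ j)⟩)
      have h2 : ∀ x : T, (f.compContinuous ⟨_, cont (p ^ j)⟩) x = f ((p ^ j) • x) := fun x => rfl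
      simp_rw [h2] at h1
      have e1 : ∀ x : T, (p ^ j) • p • x = (p ^ (j + 1)) • x := by
        intro x; rw [pow_succ, mul_smul]
      have e2 : ∀ x : T, (p ^ j) • q • x = q • (p ^ j) • x := fun x => smul_comm _ _ _
      simp_rw [e1, e2, e1] at h1
      linarith
  have havg : ∀ (f : T →ᵇ ℝ) (J : ℕ), ∫ x, f x ∂(lam J : Measure T) -
      ∫ x, f (q • x) ∂(lam J : Measure T) = ∫ x, f x ∂μ - ∫ x, f (q • x) ∂μ := by
    intro f J
    show ∫ x, f x ∂(avg p μ J) - ∫ x, f (q • x) ∂(avg p μ J) = _
    have h1 := integral_avg p μ J (f.compContinuous ⟨_, cont q⟩)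
    have h2 : ∀ x : T, (f.compContinuous ⟨_, cont q⟩) x = f (q • x) := fun x => rfl
    simp_rw [h2] at h1
    rw [h1, integral_avg, ← mul_sub, ← Finset.sum_sub_distrib,
      Finset.sum_congr rfl fun j _ => hstep f j, Finset.sum_const, Finset.card_range,
      nsmul_eq_mul, ← mul_assoc]
    push_cast
    rw [inv_mul_cancel₀ (by positivity), one_mul]
  have hp2 : IsProbabilityMeasure (μ.map (fun x : T => q • x)) :=
    Measure.isProbabilityMeasure_map (meas _).aemeasurable
  have hp3 : IsProbabilityMeasure ((M : Measure T).map (fun x : T => q • x)) :=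
    Measure.isProbabilityMeasure_map (meas _).aemeasurable
  refine ext_of_forall_integral_eq_of_IsFiniteMeasure fun f => ?_
  rw [integral_add_measure (f.integrable _) (f.integrable _),
      integral_add_measure (f.integrable _) (f.integrable _), int_map, int_map]
  have h1 := (ProbabilityMeasure.tendsto_iff_forall_integral_tendsto.1 hM) f
  have h2 := (ProbabilityMeasure.tendsto_iff_forall_integral_tendsto.1 hM)
    (f.compContinuous ⟨_, cont q⟩)
  have h3 : Tendsto (fun J => ∫ x, f x ∂(lam J : Measure T) -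
      ∫ x, (f.compContinuous ⟨_, cont q⟩) x ∂(lam J : Measure T)) F
      (𝓝 (∫ x, f x ∂(M : Measure T) - ∫ x, (f.compContinuous ⟨_, cont q⟩) x ∂(M : Measure T))) :=
    h1.sub h2
  have h4 : Tendsto (fun J => ∫ x, f x ∂(lam J : Measure T) -
      ∫ x, (f.compContinuous ⟨_, cont q⟩) x ∂(lam J : Measure T)) F
      (𝓝 (∫ x, f x ∂μ - ∫ x, f (q • x) ∂μ)) := by
    refine Tendsto.congr (fun J => (havg f J).symm) tendsto_const_nhds
  have h5 := tendsto_nhds_unique h3 h4
  have h6 : ∀ x : T, (f.compContinuous ⟨_, cont q⟩) x = f (q • x) := fun x => rfl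
  simp_rw [h6] at h5
  linarith

/-- **the decomposition** -/
theorem decomp {p q : ℕ} {μ : Measure T} [IsProbabilityMeasure μ] (h : Rel p q μ) :
    ∃ α β : Measure T, Inv p α ∧ Inv q β ∧ μ = α + β := by
  obtain ⟨M, hM1, hM2, hM3⟩ := exists_lim h
  obtain ⟨a, b, h1, h2, h3, h4⟩ := parts μ M
  obtain ⟨h5, h6⟩ := parts_inv (meas q) h1 h2 h3 h4 hM3
  obtain ⟨K, hK1, hK2, hK3, hK4⟩ := sandwich (fun x : T => smul_comm p q x) hM2 h6 h3
  have hfb : IsFiniteMeasure b := isFiniteMeasure_of_le M h3
  have hfK : IsFiniteMeasure K := isFiniteMeasure_of_le M hK4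
  have e1 : M - K + K = M := Measure.sub_add_cancel_of_le hK4
  have e2 : K - b + b = K := Measure.sub_add_cancel_of_le hK3
  have i1 : Inv p (M - K) := diff_inv (meas p) e1.symm hM2 hK1
  have i2 : Inv q (K - b) := diff_inv (meas q) e2.symm hK2 h6
  refine ⟨M - K, K - b + a, i1, i2.add_measure h5, ?_⟩
  refine cancel (c := b) ?_
  rw [h1]
  generalize M - K = u at e1
  generalize K - b = v at e2
  rw [← e1, ← e2]
  abel

end Pool.Agent.X125.SO
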