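import Pool.Agent.X125.CP.Fam

/-!
Measures annihilated by the mixed difference of two commuting maps.
-/

set_option autoImplicit false

open MeasureTheory Filter Topology Set
open scoped ENNReal BoundedContinuousFunction

namespace Pool.Agent.X125.SO

open Pool.Agent.X125.CP

variable {X : Type*} [MeasurableSpace X]

/-- cancellation of finite measures -/
lemma cancel {a b c : Measure X} [IsFiniteMeasure c] (h : a + c = b + c) : a = b := by
  refine Measure.ext fun A _ => ?_
  have h1 : (a + c) A = (b + c) A := by rw [h]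
  rw [Measure.add_apply, Measure.add_apply] at h1
  exact (ENNReal.add_left_inj (measure_ne_top c A)).1 h1

lemma eq_of_le_univ {a b : Measure X} [IsFiniteMeasure b] (h : a ≤ b) (hu : a Set.univ = b Set.univ) :
    a = b := by
  refine Measure.ext fun A hA => ?_
  refine le_antisymm (h A) ?_
  have e1 : a Set.univ = a A + a Aᶜ := (measure_add_measure_compl hA).symm
  have e2 : b Set.univ = b A + b Aᶜ := (measure_add_measure_compl hA).symm
  have h2 : a Aᶜ ≤ b Aᶜ := h _
  rw [e1, e2] at hu
  have hf : b Aᶜ ≠ ⊤ := measure_ne_top _ _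
  have h3 : b A + b Aᶜ ≤ a A + b Aᶜ := by
    rw [← hu]
    gcongr
  exact (ENNReal.add_le_add_iff_right hf).1 h3

/-- a measure between -/
theorem sandwich {S R : X → X} (hc : ∀ x, S (R x) = R (S x)) {M b : Measure X} [IsFiniteMeasure M]
    (hM : MeasurePreserving S M M) (hb : MeasurePreserving R b b) (hle : b ≤ M) :
    ∃ K : Measure X, MeasurePreserving S K K ∧ MeasurePreserving R K K ∧ b ≤ K ∧ K ≤ M := by
  have hfb : IsFiniteMeasure b := isFiniteMeasure_of_le M hle
  have hac : b ≪ M := Measure.absolutelyContinuous_of_le hle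
  set g : X → ℝ≥0∞ := b.rnDeriv M with hg
  have hgm : Measurable g := Measure.measurable_rnDeriv b M
  have := Measure.haveLebesgueDecomposition_of_sigmaFinite b M
  have hbg : M.withDensity g = b := Measure.withDensity_rnDeriv_eq b M hac
  have hg1 : ∀ᵐ x ∂M, g x ≤ 1 := by
    refine ae_le_of_forall_setLIntegral_le_of_sigmaFinite hgm fun s hs _ => ?_
    rw [← withDensity_apply _ hs, hbg, lintegral_one, Measure.restrict_apply_univ]
    exact hle s
  have hSn : ∀ n : ℕ, MeasurePreserving S^[n] M M := fun n => hM.iterate n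
  set h : X → ℝ≥0∞ := fun x => ⨆ n : ℕ, g (S^[n] x) with hh
  have hhm : Measurable h := by
    refine Measurable.iSup fun n => hgm.comp (hSn n).measurable
  have hh1 : ∀ᵐ x ∂M, h x ≤ 1 := by
    have : ∀ᵐ x ∂M, ∀ n : ℕ, g (S^[n] x) ≤ 1 := by
      rw [ae_all_iff]
      intro n
      exact (hSn n).quasiMeasurePreserving.ae hg1
    filter_upwards [this] with x hx
    exact iSup_le hx
  have hhS : ∀ x, h (S x) ≤ h x := by
    intro x
    refine iSup_le fun n => ?_
    have : g (S^[n] (S x)) = g (S^[n + 1] x) := by rw [Function.iterate_succ_apply]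
    rw [this]
    exact le_iSup (fun n => g (S^[n] x)) (n + 1)
  have hfin : ∫⁻ x, h x ∂M ≠ ⊤ := by
    have : ∫⁻ x, h x ∂M ≤ ∫⁻ _, 1 ∂M := lintegral_mono_ae hh1
    rw [lintegral_one] at this
    exact (this.trans_lt (measure_lt_top _ _)).ne
  have hhe : h ∘ S =ᵐ[M] h := by
    have e : ∫⁻ x, h x ∂M ≤ ∫⁻ x, (h ∘ S) x ∂M := by
      have := hM.lintegral_comp hhm
      simp only [Function.comp]
      rw [this]
    refine ae_eq_of_ae_le_of_lintegral_le (Eventually.of_forall hhS) ?_ hhm.aemeasurable e
    have := hM.lintegral_comp hhm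
    simp only [Function.comp]
    rw [this]
    exact hfin
  set K : Measure X := M.withDensity h with hK
  have hKM : K ≤ M := by
    calc M.withDensity h ≤ M.withDensity 1 := withDensity_mono hh1
      _ = M := withDensity_one
  have hfK : IsFiniteMeasure K := isFiniteMeasure_of_le M hKM
  have hKS : MeasurePreserving S K K := by
    refine ⟨hM.measurable, ?_⟩
    refine Measure.ext fun A hA => ?_
    rw [Measure.map_apply hM.measurable hA, hK, withDensity_apply _ (hM.measurable hA),
      withDensity_apply _ hA]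
    have e1 : ∫⁻ x in S ⁻¹' A, h x ∂M = ∫⁻ x in S ⁻¹' A, (h ∘ S) x ∂M :=
      lintegral_congr_ae (ae_restrict_of_ae hhe.symm)
    rw [e1]
    exact hM.setLIntegral_comp_preimage hA hhm
  have hbK : b ≤ K := by
    rw [← hbg]
    refine withDensity_mono (Eventually.of_forall fun x => ?_)
    exact le_iSup (fun n => g (S^[n] x)) 0
  refine ⟨K, hKS, ⟨hb.measurable, ?_⟩, hbK, hKM⟩
  set K' : Measure X := K.map R with hK'
  have hfK' : IsFiniteMeasure K' := inferInstance
  have hbK' : b ≤ K' := by
    rw [← hb.map_eq]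
    exact Measure.map_mono hbK hb.measurable
  have hSK' : MeasurePreserving S K' K' := by
    refine ⟨hM.measurable, ?_⟩
    rw [hK', Measure.map_map hM.measurable hb.measurable]
    have e : S ∘ R = R ∘ S := by
      funext x; exact hc x
    rw [e, ← Measure.map_map hb.measurable hM.measurable, hKS.map_eq]
  have hψ : K'.rnDeriv M ∘ S =ᵐ[M] K'.rnDeriv M := hSK'.rnDeriv_comp_aeEq hM
  have hψn : ∀ n : ℕ, K'.rnDeriv M ∘ S^[n] =ᵐ[M] K'.rnDeriv M := by
    intro n
    induction n with
    | zero => exact ae_eq_refl _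
    | succ n ih =>
      have e : K'.rnDeriv M ∘ S^[n + 1] = (K'.rnDeriv M ∘ S^[n]) ∘ S := by
        funext x
        simp only [Function.comp, Function.iterate_succ_apply]
      rw [e]
      exact (hM.quasiMeasurePreserving.ae_eq_comp ih).trans hψ
  have hgψ : ∀ᵐ x ∂M, g x ≤ K'.rnDeriv M x := by
    have h1 : b ≤ W K' M := le_W hbK' hac
    refine ae_le_of_forall_setLIntegral_le_of_sigmaFinite hgm fun s hs _ => ?_
    rw [← withDensity_apply _ hs, hbg, ← withDensity_apply _ hs]
    exact h1 s
  have hhψ : ∀ᵐ x ∂M, h x ≤ K'.rnDeriv M x := by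
    have : ∀ᵐ x ∂M, ∀ n : ℕ, g (S^[n] x) ≤ K'.rnDeriv M x := by
      rw [ae_all_iff]
      intro n
      filter_upwards [(hSn n).quasiMeasurePreserving.ae hgψ, hψn n] with x hx1 hx2
      rw [← hx2]
      exact hx1
    filter_upwards [this] with x hx
    exact iSup_le hx
  have hKK' : K ≤ K' := by
    refine (withDensity_mono hhψ).trans ?_
    exact W_le K' M
  symm
  refine eq_of_le_univ hKK' ?_
  rw [hK', Measure.map_apply hb.measurable MeasurableSet.univ, Set.preimage_univ]

end Pool.Agent.X125.SO
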